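import Mathlib

set_option autoImplicit false

/-!
# DM/Depth: the parameter `t(m) = ⌊m^(1/p)⌋` of the blocks and the sums over the depth
-/

namespace Pool.Agent.DM

open Finset

/-- `t(m) = ⌊m ^ (1/p)⌋`. -/
def tt (p m : ℕ) : ℕ := Nat.findGreatest (fun t => t ^ p ≤ m) m

section tt

variable {p : ℕ}

theorem tt_pow_le (hp : 1 ≤ p) (m : ℕ) : tt p m ^ p ≤ m := by
  have h := Nat.findGreatest_spec (P := fun t => t ^ p ≤ m) (Nat.zero_le m)
    (by rw [zero_pow (by omega)]; exact Nat.zero_le m)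
  exact h

theorem lt_tt_pow (hp : 1 ≤ p) (m : ℕ) : m < (tt p m + 1) ^ p := by
  by_contra h
  push Not at h
  have h1 : tt p m + 1 ≤ m := (Nat.le_self_pow (by omega) _).trans h
  exact Nat.findGreatest_is_greatest (P := fun t => t ^ p ≤ m) (Nat.lt_succ_self (tt p m)) h1 h

theorem le_tt_iff (hp : 1 ≤ p) {t m : ℕ} : t ≤ tt p m ↔ t ^ p ≤ m := by
  constructor
  · intro h
    exact (Nat.pow_le_pow_left h p).trans (tt_pow_le hp m)
  · intro h
    by_contra h1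
    push Not at h1
    have h2 : (tt p m + 1) ^ p ≤ t ^ p := Nat.pow_le_pow_left h1 p
    have := lt_tt_pow hp m
    omega

theorem tt_mono (hp : 1 ≤ p) : Monotone (tt p) := by
  intro a b hab
  rw [le_tt_iff hp]
  exact (tt_pow_le hp a).trans hab

theorem tt_pow (hp : 1 ≤ p) (t : ℕ) : tt p (t ^ p) = t := by
  apply le_antisymm
  · by_contra h
    push Not at h
    have h1 : (t + 1) ^ p ≤ t ^ p := (le_tt_iff hp).1 h
    have h2 : t ^ p < (t + 1) ^ p := Nat.pow_lt_pow_left (Nat.lt_succ_self t) (by omega)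
    omega
  · rw [le_tt_iff hp]

theorem tt_succ (hp : 1 ≤ p) (m : ℕ) : tt p (m + 1) ≤ tt p m + 1 := by
  by_contra h
  push Not at h
  have h1 : (tt p m + 1 + 1) ^ p ≤ m + 1 := (le_tt_iff hp).1 h
  have h2 : (tt p m + 1) ^ p < (tt p m + 1 + 1) ^ p :=
    Nat.pow_lt_pow_left (Nat.lt_succ_self _) (by omega)
  have h3 := lt_tt_pow hp m
  omega

theorem tt_pos (hp : 1 ≤ p) {m : ℕ} (hm : 1 ≤ m) : 1 ≤ tt p m := by
  rw [le_tt_iff hp, one_pow]
  exact hm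

theorem card_tt_eq_le (hp : 1 ≤ p) (t : ℕ) (s : Finset ℕ) :
    (s.filter fun m => tt p m = t).card ≤ (t + 1) ^ p := by
  calc (s.filter fun m => tt p m = t).card ≤ (range ((t + 1) ^ p)).card := by
        apply card_le_card
        intro m hm
        rw [mem_filter] at hm
        rw [mem_range, ← hm.2]
        exact lt_tt_pow hp m
    _ = (t + 1) ^ p := card_range _

end tt

/-- `G(t) = c t^E log t`. -/
noncomputable def GG (c : ℝ) (E t : ℕ) : ℝ := c * (t : ℝ) ^ E * Real.log t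

theorem GG_nonneg {c : ℝ} (hc : 0 ≤ c) (E t : ℕ) : 0 ≤ GG c E t :=
  mul_nonneg (mul_nonneg hc (by positivity)) (Real.log_natCast_nonneg t)

theorem GG_mono {c : ℝ} (hc : 0 ≤ c) (E : ℕ) {s t : ℕ} (hs : 1 ≤ s) (h : s ≤ t) :
    GG c E s ≤ GG c E t := by
  have h1 : (0 : ℝ) < s := by exact_mod_cast hs
  have h2 : (s : ℝ) ≤ t := by exact_mod_cast h
  unfold GG
  apply mul_le_mul
  · exact mul_le_mul_of_nonneg_left (pow_le_pow_left₀ h1.le h2 E) hc
  · exact Real.log_le_log h1 h2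
  · exact Real.log_natCast_nonneg s
  · positivity

theorem succ_pow_le {E s : ℕ} (h : 4 * E ≤ s) (hs : 1 ≤ s) :
    ((s : ℝ) + 1) ^ E ≤ 4 / 3 * (s : ℝ) ^ E := by
  have hs' : (0 : ℝ) < s := by exact_mod_cast hs
  have h1 : (s : ℝ) + 1 ≤ s * Real.exp (1 / s) := by
    have h2 : 1 / (s : ℝ) + 1 ≤ Real.exp (1 / s) := Real.add_one_le_exp _
    calc (s : ℝ) + 1 = s * (1 / (s : ℝ) + 1) := by field_simp; ring
      _ ≤ s * Real.exp (1 / s) := mul_le_mul_of_nonneg_left h2 hs'.le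
  have h3 : ((s : ℝ) + 1) ^ E ≤ (s * Real.exp (1 / s)) ^ E :=
    pow_le_pow_left₀ (by positivity) h1 E
  have h4 : Real.exp (1 / s) ^ E = Real.exp (E / s) := by
    rw [← Real.exp_nat_mul]
    congr 1
    ring
  have h5 : (E : ℝ) / s ≤ 1 / 4 := by
    rw [div_le_div_iff₀ hs' (by norm_num)]
    have : (4 * E : ℝ) ≤ s := by exact_mod_cast h
    linarith
  have h6 : Real.exp (E / s) ≤ 4 / 3 := by
    refine (Real.exp_le_exp.2 h5).trans ?_
    have h7 : Real.exp (1 / 4) ≤ 1 / (1 - 1 / 4) := by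
      have h8 : 1 - 1 / 4 ≤ Real.exp (-(1 / 4)) := by
        have := Real.add_one_le_exp (-(1 / 4 : ℝ))
        linarith
      rw [Real.exp_neg] at h8
      rw [le_div_iff₀ (by norm_num)]
      have h9 := Real.exp_pos (1 / 4)
      calc Real.exp (1 / 4) * (1 - 1 / 4) ≤ Real.exp (1 / 4) * (Real.exp (1 / 4))⁻¹ :=
            mul_le_mul_of_nonneg_left h8 h9.le
        _ = 1 := mul_inv_cancel₀ h9.ne'
    refine h7.trans (by norm_num)
  calc ((s : ℝ) + 1) ^ E ≤ (s * Real.exp (1 / s)) ^ E := h3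
    _ = s ^ E * Real.exp (E / s) := by rw [mul_pow, h4]
    _ ≤ s ^ E * (4 / 3) := mul_le_mul_of_nonneg_left h6 (by positivity)
    _ = 4 / 3 * (s : ℝ) ^ E := by ring

theorem log_le_of_sq_le_cube {a b : ℕ} (ha : 1 ≤ a) (hb : 1 ≤ b) (h : a ^ 2 ≤ b ^ 3) :
    Real.log a ≤ 3 / 2 * Real.log b := by
  have ha' : (0 : ℝ) < a := by exact_mod_cast ha
  have hb' : (0 : ℝ) < b := by exact_mod_cast hb
  have h1 : Real.log ((a : ℝ) ^ 2) ≤ Real.log ((b : ℝ) ^ 3) :=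
    Real.log_le_log (by positivity) (by exact_mod_cast h)
  rw [Real.log_pow, Real.log_pow] at h1
  push_cast at h1
  linarith

/-- (N1) -/
theorem GG_succ {c : ℝ} (hc : 0 ≤ c) {E s : ℕ} (h : 4 * E ≤ s) (hs : 3 ≤ s) :
    GG c E (s + 1) ≤ 2 * GG c E s := by
  have h1 := succ_pow_le h (by omega)
  have h2 : Real.log ((s + 1 : ℕ) : ℝ) ≤ 3 / 2 * Real.log s := by
    apply log_le_of_sq_le_cube (by omega) (by omega)
    nlinarith [Nat.mul_le_mul hs (Nat.mul_le_mul hs hs), Nat.mul_le_mul hs hs,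
      Nat.mul_le_mul hs (le_refl (s * s))]
  unfold GG
  have h3 : (((s + 1 : ℕ) : ℝ)) ^ E ≤ 4 / 3 * (s : ℝ) ^ E := by
    push_cast
    exact h1
  calc c * (((s + 1 : ℕ) : ℝ)) ^ E * Real.log ((s + 1 : ℕ) : ℝ)
      ≤ c * (4 / 3 * (s : ℝ) ^ E) * (3 / 2 * Real.log s) := by
        apply mul_le_mul
        · exact mul_le_mul_of_nonneg_left h3 hc
        · exact h2
        · exact Real.log_natCast_nonneg _
        · positivity
    _ = 2 * (c * (s : ℝ) ^ E * Real.log s) := by ring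

theorem GG_tt_succ {c : ℝ} (hc : 0 ≤ c) {E p m : ℕ} (hp : 1 ≤ p) (h : 4 * E ≤ tt p m)
    (hs : 3 ≤ tt p m) : GG c E (tt p (m + 1)) ≤ 2 * GG c E (tt p m) := by
  have h1 : tt p m ≤ tt p (m + 1) := tt_mono hp (Nat.le_succ m)
  exact (GG_mono hc E (by omega) (tt_succ hp m)).trans (GG_succ hc h hs)

/-- The comparison in the upper half: `G(t(M)) ≤ 4 G(t(m))` if `M ≤ 2 m`. -/
theorem GG_half {c : ℝ} (hc : 0 ≤ c) {E p m M : ℕ} (hp : E ≤ p) (hp1 : 1 ≤ p)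
    (hm : m ≤ M) (hM : M ≤ 2 * m) (h : 4 * E ≤ tt p m) (hs : 6 ≤ tt p m) :
    GG c E (tt p M) ≤ 4 * GG c E (tt p m) := by
  set s := tt p m with hs_def
  set T := tt p M with hT_def
  have hsT : s ≤ T := tt_mono hp1 hm
  have h1 : T ^ p ≤ M := tt_pow_le hp1 M
  have h2 : m < (s + 1) ^ p := lt_tt_pow hp1 m
  have h3 : T ^ p < 2 * (s + 1) ^ p := by omega
  have hs0 : (0 : ℝ) < s := by
    have : 0 < s := by omega
    exact_mod_cast this
  have h4 : (T : ℝ) ^ E ≤ 2 * ((s : ℝ) + 1) ^ E := by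
    by_cases hle : T ≤ s + 1
    · have h5 : (T : ℝ) ≤ s + 1 := by exact_mod_cast hle
      have h6 : (T : ℝ) ^ E ≤ ((s : ℝ) + 1) ^ E := pow_le_pow_left₀ (by positivity) h5 E
      have h7 : (0 : ℝ) ≤ ((s : ℝ) + 1) ^ E := by positivity
      linarith
    · push Not at hle
      have h5 : (1 : ℝ) ≤ T / (s + 1) := by
        rw [le_div_iff₀ (by positivity), one_mul]
        exact_mod_cast hle.le
      have h6 : ((T : ℝ) / (s + 1)) ^ E ≤ ((T : ℝ) / (s + 1)) ^ p := pow_le_pow_right₀ h5 hp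
      have h7 : ((T : ℝ) / (s + 1)) ^ p ≤ 2 := by
        rw [div_pow, div_le_iff₀ (by positivity)]
        exact_mod_cast h3.le
      have h8 := h6.trans h7
      rw [div_pow, div_le_iff₀ (by positivity)] at h8
      exact h8
  have h5 : T ≤ 2 * (s + 1) := by
    by_contra h6
    push Not at h6
    have h7 : (2 * (s + 1)) ^ p ≤ T ^ p := Nat.pow_le_pow_left h6.le p
    rw [mul_pow] at h7
    have h8 : 2 ≤ 2 ^ p := by
      calc 2 = 2 ^ 1 := (pow_one 2).symm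
        _ ≤ 2 ^ p := Nat.pow_le_pow_right (by norm_num) hp1
    have h9 : 2 * (s + 1) ^ p ≤ 2 ^ p * (s + 1) ^ p := Nat.mul_le_mul_right _ h8
    omega
  have h6 : Real.log T ≤ 3 / 2 * Real.log s := by
    apply log_le_of_sq_le_cube (by omega) (by omega)
    have h7 : T ^ 2 ≤ (2 * (s + 1)) ^ 2 := Nat.pow_le_pow_left h5 2
    refine h7.trans ?_
    have h8 : 6 * s ^ 2 ≤ s ^ 3 := by
      rw [pow_succ s 2, mul_comm (s ^ 2) s]
      exact Nat.mul_le_mul_right _ hs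
    nlinarith [Nat.mul_le_mul hs hs]
  have h7 := succ_pow_le h (by omega)
  unfold GG
  calc c * (T : ℝ) ^ E * Real.log T
      ≤ c * (2 * (4 / 3 * (s : ℝ) ^ E)) * (3 / 2 * Real.log s) := by
        apply mul_le_mul
        · apply mul_le_mul_of_nonneg_left _ hc
          linarith
        · exact h6
        · exact Real.log_natCast_nonneg _
        · positivity
    _ = 4 * (c * (s : ℝ) ^ E * Real.log s) := by ring

/-- (N2) -/
theorem GG_sum_ge {c : ℝ} (hc : 0 ≤ c) {E p μ M : ℕ} (hp : E ≤ p) (hp1 : 1 ≤ p)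
    (h : 4 * E ≤ tt p (μ + 1)) (hs : 6 ≤ tt p (μ + 1)) (hμ : μ ≤ M) :
    ((M : ℝ) - μ) * GG c E (tt p M) / 8 ≤ ∑ m ∈ Ioc μ M, GG c E (tt p m) := by
  set k := max μ ((M - 1) / 2) with hk
  have hkM : k ≤ M := by
    rw [hk, max_le_iff]
    refine ⟨hμ, ?_⟩
    omega
  have h1 : ∑ m ∈ Ioc k M, GG c E (tt p m) ≤ ∑ m ∈ Ioc μ M, GG c E (tt p m) := by
    apply Finset.sum_le_sum_of_subset_of_nonneg
    · intro m hm
      rw [mem_Ioc] at hm ⊢
      have : μ ≤ k := le_max_left _ _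
      omega
    · intro m _ _
      exact GG_nonneg hc _ _
  have h2 : ∑ _m ∈ Ioc k M, GG c E (tt p M) / 4 ≤ ∑ m ∈ Ioc k M, GG c E (tt p m) := by
    apply Finset.sum_le_sum
    intro m hm
    rw [mem_Ioc] at hm
    have h3 : μ ≤ k := le_max_left _ _
    have h4 : (M - 1) / 2 ≤ k := le_max_right _ _
    have h5 : tt p (μ + 1) ≤ tt p m := tt_mono hp1 (by omega)
    have h6 := GG_half hc (m := m) (M := M) hp hp1 hm.2 (by omega) (by omega) (by omega)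
    linarith
  have h3 : ∑ _m ∈ Ioc k M, GG c E (tt p M) / 4 = ((M : ℝ) - k) * (GG c E (tt p M) / 4) := by
    rw [Finset.sum_const, Nat.card_Ioc, nsmul_eq_mul, Nat.cast_sub hkM]
  have h4 : ((M : ℝ) - μ) / 2 ≤ (M : ℝ) - k := by
    have h5 : 2 * k ≤ M + μ := by
      rcases le_total μ ((M - 1) / 2) with h6 | h6
      · rw [hk, max_eq_right h6]
        omega
      · rw [hk, max_eq_left h6]
        omega
    have h6 : (2 * k : ℝ) ≤ M + μ := by exact_mod_cast h5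
    linarith
  have h5 := GG_nonneg hc E (tt p M)
  calc ((M : ℝ) - μ) * GG c E (tt p M) / 8 = ((M : ℝ) - μ) / 2 * (GG c E (tt p M) / 4) := by ring
    _ ≤ ((M : ℝ) - k) * (GG c E (tt p M) / 4) := mul_le_mul_of_nonneg_right h4 (by positivity)
    _ ≤ ∑ m ∈ Ioc μ M, GG c E (tt p m) := by
      rw [← h3]
      exact h2.trans h1

/-- `log m ≤ 2 p log t(m)` for `t(m) ≥ 2`. -/
theorem log_le_tt {p m : ℕ} (hp : 1 ≤ p) (h : 2 ≤ tt p m) (hm : 1 ≤ m) :
    Real.log m ≤ 2 * p * Real.log (tt p m) := by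
  have h1 := lt_tt_pow hp m
  have h2 : m ≤ (tt p m) ^ (2 * p) := by
    calc m ≤ (tt p m + 1) ^ p := h1.le
      _ ≤ (tt p m ^ 2) ^ p := Nat.pow_le_pow_left (by nlinarith) p
      _ = (tt p m) ^ (2 * p) := by rw [← pow_mul]
  have h3 : (0 : ℝ) < m := by exact_mod_cast hm
  have h4 : Real.log m ≤ Real.log ((tt p m : ℝ) ^ (2 * p)) :=
    Real.log_le_log h3 (by exact_mod_cast h2)
  rw [Real.log_pow] at h4
  push_cast at h4
  exact h4

/-- (N3) the terms `exp (- G(t(m)))` are at most `1 / m ^ 2`. -/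
theorem exp_GG_le {c : ℝ} {E p m : ℕ} (hp : 1 ≤ p) (hE : 1 ≤ E) (h : 2 ≤ tt p m)
    (hc0 : 0 ≤ c) (hc : 4 * p ≤ c * tt p m) : Real.exp (-GG c E (tt p m)) ≤ ((m : ℝ) ^ 2)⁻¹ := by
  have hm : 1 ≤ m := by
    have h1 := tt_pow_le hp m
    have h2 : 1 ≤ tt p m ^ p := Nat.one_le_pow _ _ (by omega)
    omega
  have hm' : (0 : ℝ) < m := by exact_mod_cast hm
  have h1 := log_le_tt hp h hm
  have hl : 0 ≤ Real.log (tt p m) := Real.log_natCast_nonneg _
  have ht1 : (1 : ℝ) ≤ tt p m := by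
    have : 1 ≤ tt p m := by omega
    exact_mod_cast this
  have h2 : c * (tt p m : ℝ) ≤ c * (tt p m : ℝ) ^ E := by
    apply mul_le_mul_of_nonneg_left _ hc0
    calc (tt p m : ℝ) = (tt p m : ℝ) ^ 1 := (pow_one _).symm
      _ ≤ (tt p m : ℝ) ^ E := pow_le_pow_right₀ ht1 hE
  have h3 : 2 * Real.log m ≤ GG c E (tt p m) := by
    unfold GG
    calc 2 * Real.log m ≤ 4 * p * Real.log (tt p m) := by linarith
      _ ≤ (c * (tt p m : ℝ) ^ E) * Real.log (tt p m) :=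
        mul_le_mul_of_nonneg_right (hc.trans h2) hl
  have h4 : ((m : ℝ) ^ 2)⁻¹ = Real.exp (-(2 * Real.log m)) := by
    rw [Real.exp_neg, two_mul, Real.exp_add, Real.exp_log hm', sq]
  rw [h4]
  apply Real.exp_le_exp.2
  linarith

/-- (N3) `∑_{m ≥ m₀} exp (- G(t(m))) ≤ 2 / m₀`. -/
theorem sum_exp_GG_le {c : ℝ} {E p m₀ : ℕ} (hp : 1 ≤ p) (hE : 1 ≤ E) (h : 2 ≤ tt p m₀)
    (hc0 : 0 ≤ c) (hc : 4 * p ≤ c * tt p m₀) (n : ℕ) :
    ∑ m ∈ Ico m₀ n, Real.exp (-GG c E (tt p m)) ≤ 2 / (m₀ : ℝ) := by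
  have hm : 1 ≤ m₀ := by
    have h1 := tt_pow_le hp m₀
    have h2 : 1 ≤ tt p m₀ ^ p := Nat.one_le_pow _ _ (by omega)
    omega
  have h1 : ∑ m ∈ Ico m₀ n, Real.exp (-GG c E (tt p m)) ≤ ∑ m ∈ Ico m₀ n, ((m : ℝ) ^ 2)⁻¹ := by
    apply Finset.sum_le_sum
    intro m hm1
    rw [mem_Ico] at hm1
    have h2 : tt p m₀ ≤ tt p m := tt_mono hp hm1.1
    have h3 : (tt p m₀ : ℝ) ≤ tt p m := by exact_mod_cast h2
    exact exp_GG_le hp hE (by omega) hc0 (hc.trans (mul_le_mul_of_nonneg_left h3 hc0))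
  have h2 : Ico m₀ n = Ioo (m₀ - 1) n := by
    ext x
    rw [mem_Ico, mem_Ioo]
    omega
  refine h1.trans ?_
  rw [h2]
  refine (sum_Ioo_inv_sq_le (m₀ - 1) n).trans ?_
  rw [Nat.cast_sub hm]
  push_cast
  apply le_of_eq
  congr 1
  ring

/-- The failure probabilities: `t(m) ^ (-2p) ≤ 4 ^ p / m ^ 2`. -/
theorem tt_inv_pow_le {p m : ℕ} (hp : 1 ≤ p) (h : 1 ≤ tt p m) :
    ((tt p m : ℝ) ^ (2 * p))⁻¹ ≤ 4 ^ p * ((m : ℝ) ^ 2)⁻¹ := by
  have hm : 1 ≤ m := by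
    have h1 := tt_pow_le hp m
    have h2 : 1 ≤ tt p m ^ p := Nat.one_le_pow _ _ (by omega)
    omega
  have hm' : (0 : ℝ) < m := by exact_mod_cast hm
  have ht : (0 : ℝ) < tt p m := by exact_mod_cast h
  have h1 : (m : ℝ) ≤ (2 * tt p m) ^ p := by
    have h2 : m ≤ (2 * tt p m) ^ p := by
      calc m ≤ (tt p m + 1) ^ p := (lt_tt_pow hp m).le
        _ ≤ (2 * tt p m) ^ p := Nat.pow_le_pow_left (by omega) p
    exact_mod_cast h2
  have h2 : (m : ℝ) ^ 2 ≤ 4 ^ p * (tt p m : ℝ) ^ (2 * p) := by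
    calc (m : ℝ) ^ 2 ≤ ((2 * tt p m : ℝ) ^ p) ^ 2 := pow_le_pow_left₀ hm'.le h1 2
      _ = 4 ^ p * (tt p m : ℝ) ^ (2 * p) := by
        rw [mul_pow, mul_pow, ← pow_mul, ← pow_mul, mul_comm p 2, pow_mul 2 2 p]
        norm_num
  rw [inv_le_iff_one_le_mul₀ (by positivity)]
  have h3 : 0 < ((m : ℝ) ^ 2)⁻¹ := by positivity
  calc (1 : ℝ) = (m : ℝ) ^ 2 * ((m : ℝ) ^ 2)⁻¹ := (mul_inv_cancel₀ (by positivity)).symm
    _ ≤ (4 ^ p * (tt p m : ℝ) ^ (2 * p)) * ((m : ℝ) ^ 2)⁻¹ := mul_le_mul_of_nonneg_right h2 h3.le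
    _ = 4 ^ p * ((m : ℝ) ^ 2)⁻¹ * (tt p m : ℝ) ^ (2 * p) := by ring

/-- (N4) the shallow blocks are a negligible part of every interval which contains one. -/
theorem shallow_le {p : ℕ} (hp : 1 ≤ p) {ε : ℝ} (hε : 0 < ε) :
    ∃ t₀ : ℕ, ∀ μ M : ℕ, μ ≤ M → t₀ ≤ tt p M →
      (((Ioc μ M).filter fun m => tt p m ^ 2 < tt p M).card : ℝ) ≤ ε * ((M : ℝ) - μ) := by
  obtain ⟨r₀, hr₀⟩ := exists_nat_ge (2 ^ p * (1 + 1 / ε))
  refine ⟨(r₀ + 1) ^ 2, fun μ M hμ hM => ?_⟩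
  set T := tt p M with hT
  set r := Nat.sqrt T with hr
  have hr1 : r₀ + 1 ≤ r := by
    rw [hr, Nat.le_sqrt']
    exact hM
  by_cases hne : ((Ioc μ M).filter fun m => tt p m ^ 2 < T).Nonempty
  · have hlt : ∀ m ∈ (Ioc μ M).filter (fun m => tt p m ^ 2 < T), μ < m ∧ m < (r + 1) ^ p := by
      intro m hm
      rw [mem_filter, mem_Ioc] at hm
      refine ⟨hm.1.1, ?_⟩
      have h1 : tt p m ≤ r := by
        rw [hr, Nat.le_sqrt']
        exact hm.2.le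
      exact (lt_tt_pow hp m).trans_le (Nat.pow_le_pow_left (by omega) p)
    obtain ⟨m1, hm1⟩ := hne
    have hμr : μ < (r + 1) ^ p := (hlt m1 hm1).1.trans (hlt m1 hm1).2
    have hcard : ((Ioc μ M).filter fun m => tt p m ^ 2 < T).card ≤ (r + 1) ^ p := by
      calc ((Ioc μ M).filter fun m => tt p m ^ 2 < T).card ≤ (range ((r + 1) ^ p)).card := by
            apply card_le_card
            intro m hm
            rw [mem_range]
            exact (hlt m hm).2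
        _ = (r + 1) ^ p := card_range _
    have h1 : (r ^ 2) ^ p ≤ M := by
      calc (r ^ 2) ^ p ≤ T ^ p := Nat.pow_le_pow_left (by rw [hr]; exact Nat.sqrt_le' T) p
        _ ≤ M := tt_pow_le hp M
    have h2 : ((r : ℝ) ^ p) ^ 2 ≤ M := by
      have : (((r ^ 2) ^ p : ℕ) : ℝ) ≤ M := by exact_mod_cast h1
      calc ((r : ℝ) ^ p) ^ 2 = (((r ^ 2) ^ p : ℕ) : ℝ) := by
            push_cast
            rw [← pow_mul, ← pow_mul, mul_comm]
        _ ≤ M := this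
    have h3 : (((r + 1) ^ p : ℕ) : ℝ) ≤ 2 ^ p * (r : ℝ) ^ p := by
      have : (r + 1) ^ p ≤ (2 * r) ^ p := Nat.pow_le_pow_left (by omega) p
      calc (((r + 1) ^ p : ℕ) : ℝ) ≤ (((2 * r) ^ p : ℕ) : ℝ) := by exact_mod_cast this
        _ = 2 ^ p * (r : ℝ) ^ p := by push_cast; rw [mul_pow]
    have h4 : (μ : ℝ) ≤ 2 ^ p * (r : ℝ) ^ p := by
      have : (μ : ℝ) ≤ (((r + 1) ^ p : ℕ) : ℝ) := by exact_mod_cast hμr.le
      exact this.trans h3
    have h5 : 2 ^ p * (1 + 1 / ε) ≤ (r : ℝ) ^ p := by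
      have h6 : (r₀ : ℝ) ≤ r := by
        have : r₀ ≤ r := by omega
        exact_mod_cast this
      have h7 : (1 : ℝ) ≤ r := by
        have : 1 ≤ r := by omega
        exact_mod_cast this
      calc 2 ^ p * (1 + 1 / ε) ≤ (r₀ : ℝ) := hr₀
        _ ≤ r := h6
        _ = (r : ℝ) ^ 1 := (pow_one _).symm
        _ ≤ (r : ℝ) ^ p := pow_le_pow_right₀ h7 hp
    have h6 : 0 ≤ (r : ℝ) ^ p := by positivity
    calc (((Ioc μ M).filter fun m => tt p m ^ 2 < T).card : ℝ) ≤ (((r + 1) ^ p : ℕ) : ℝ) := by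
          exact_mod_cast hcard
      _ ≤ 2 ^ p * (r : ℝ) ^ p := h3
      _ = ε * ((2 ^ p * (1 + 1 / ε)) * (r : ℝ) ^ p - 2 ^ p * (r : ℝ) ^ p) := by
        field_simp
        ring
      _ ≤ ε * ((r : ℝ) ^ p * (r : ℝ) ^ p - 2 ^ p * (r : ℝ) ^ p) := by
        apply mul_le_mul_of_nonneg_left _ hε.le
        have := mul_le_mul_of_nonneg_right h5 h6
        linarith
      _ ≤ ε * ((M : ℝ) - μ) := by
        apply mul_le_mul_of_nonneg_left _ hε.le
        nlinarith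
  · rw [Finset.not_nonempty_iff_eq_empty] at hne
    rw [hne, Finset.card_empty]
    have h1 : (μ : ℝ) ≤ M := by exact_mod_cast hμ
    have : 0 ≤ ε * ((M : ℝ) - μ) := mul_nonneg hε.le (by linarith)
    simpa using this

/-- (N5) the size of the tower: at most `t(M) ^ (3E)` points. -/
theorem size_le {E p M : ℕ} (hp : p = E + 2) (hE : 6 ≤ E) (h : 4 * p ≤ tt p M) (h3 : 3 ≤ tt p M)
    (s : Finset ℕ) (hs : ∀ m ∈ s, m ≤ M) :
    ∑ m ∈ s, (tt p m) ^ (E + 2) + 1 ≤ (tt p M) ^ (3 * E) := by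
  have hp1 : 1 ≤ p := by omega
  set T := tt p M with hT
  have hsc : s.card ≤ M + 1 := by
    calc s.card ≤ (range (M + 1)).card := by
          apply card_le_card
          intro m hm
          rw [mem_range]
          exact Nat.lt_succ_of_le (hs m hm)
      _ = M + 1 := card_range _
  have h1 : ∑ m ∈ s, (tt p m) ^ (E + 2) ≤ (M + 1) * T ^ (E + 2) := by
    calc ∑ m ∈ s, (tt p m) ^ (E + 2) ≤ ∑ _m ∈ s, T ^ (E + 2) :=
          Finset.sum_le_sum fun m hm => Nat.pow_le_pow_left (tt_mono hp1 (hs m hm)) _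
      _ = s.card * T ^ (E + 2) := by rw [Finset.sum_const, smul_eq_mul]
      _ ≤ (M + 1) * T ^ (E + 2) := Nat.mul_le_mul_right _ hsc
  have h2 : M + 1 ≤ (T + 1) ^ p := lt_tt_pow hp1 M
  have h4 : ((T : ℝ) + 1) ^ p ≤ 4 / 3 * (T : ℝ) ^ p := succ_pow_le h (by omega)
  have h5 : (T + 1) ^ p ≤ 2 * T ^ p := by
    have h6 : ((T : ℝ) + 1) ^ p ≤ 2 * (T : ℝ) ^ p := by
      have : (0 : ℝ) ≤ (T : ℝ) ^ p := by positivity
      linarith
    exact_mod_cast h6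
  have h6 : 1 ≤ T ^ (2 * E + 4) := Nat.one_le_pow _ _ (by omega)
  calc ∑ m ∈ s, (tt p m) ^ (E + 2) + 1 ≤ (2 * T ^ p) * T ^ (E + 2) + 1 :=
        Nat.add_le_add_right (h1.trans (Nat.mul_le_mul_right _ (h2.trans h5))) 1
    _ = 2 * T ^ (2 * E + 4) + 1 := by
      rw [hp]
      ring
    _ ≤ 3 * T ^ (2 * E + 4) := by omega
    _ ≤ T * T ^ (2 * E + 4) := Nat.mul_le_mul_right _ h3
    _ = T ^ (2 * E + 5) := by ring
    _ ≤ T ^ (3 * E) := Nat.pow_le_pow_right (by omega) (by omega)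

end Pool.Agent.DM
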